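import Pool.Agent.W2helper58.PW.Stm

set_option autoImplicit false

/-!
# Project PW, piece SEC2
-/

namespace Pool.Agent.W2helper92.PW

open Pool.Agent.W2helper58.PW Finset

variable {R S K C : Type}

open Classical in
/-- collisions of two given secret keys are rare -/
theorem card_eq_le [Fintype R] [Fintype S] [Fintype K] [Fintype C] {r₁ r₂ : R} (h : r₁ ≠ r₂) :
    (univ.filter fun T : Tab R S K C => T.1 r₁ = T.1 r₂).card * Fintype.card K ≤
      Fintype.card (Tab R S K C) := by
  rw [← card_univ (α := K), ← card_product, ← card_univ (α := Tab R S K C)]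
  refine card_le_card_of_injOn (fun x => (Function.update x.1.1 r₁ x.2, x.1.2))
    (fun _ _ => mem_univ _) ?_
  rintro ⟨⟨f, g⟩, z⟩ hx ⟨⟨f', g'⟩, z'⟩ hy hxy
  rw [mem_coe, mem_product, mem_filter] at hx hy
  have h1 : f r₁ = f r₂ := hx.1.2
  have h2 : f' r₁ = f' r₂ := hy.1.2
  simp only [Prod.mk.injEq] at hxy
  obtain ⟨h3, h4⟩ := hxy
  have h5 : z = z' := by
    have := congrFun h3 r₁
    simpa using this
  have h6 : f = f' := by
    funext r
    by_cases hr : r = r₁
    · subst hr
      have := congrFun h3 r₂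
      rw [Function.update_of_ne h.symm, Function.update_of_ne h.symm] at this
      rw [h1, h2, this]
    · have := congrFun h3 r
      rwa [Function.update_of_ne hr, Function.update_of_ne hr] at this
  rw [h4, h5, h6]

open Classical in
/-- collisions are rare -/
theorem card_bad_le [Fintype R] [Fintype S] [Fintype K] [Fintype C] :
    (univ.filter fun T : Tab R S K C => ¬ Function.Injective T.1).card * Fintype.card K ≤
      Fintype.card R ^ 2 * Fintype.card (Tab R S K C) := by
  have h1 : (univ.filter fun T : Tab R S K C => ¬ Function.Injective T.1) ⊆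
      ((univ : Finset (R × R)).filter fun p => p.1 ≠ p.2).biUnion fun p =>
        univ.filter fun T : Tab R S K C => T.1 p.1 = T.1 p.2 := by
    intro T hT
    have h2 := (mem_filter.1 hT).2
    unfold Function.Injective at h2
    push Not at h2
    obtain ⟨r₁, r₂, h3, h4⟩ := h2
    rw [mem_biUnion]
    exact ⟨(r₁, r₂), mem_filter.2 ⟨mem_univ _, h4⟩, mem_filter.2 ⟨mem_univ _, h3⟩⟩
  calc (univ.filter fun T : Tab R S K C => ¬ Function.Injective T.1).card * Fintype.card K
      ≤ (∑ p ∈ (univ : Finset (R × R)).filter fun p => p.1 ≠ p.2,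
        (univ.filter fun T : Tab R S K C => T.1 p.1 = T.1 p.2).card) * Fintype.card K :=
        Nat.mul_le_mul_right _ ((card_le_card h1).trans card_biUnion_le)
    _ = ∑ p ∈ (univ : Finset (R × R)).filter fun p => p.1 ≠ p.2,
        (univ.filter fun T : Tab R S K C => T.1 p.1 = T.1 p.2).card * Fintype.card K := sum_mul _ _ _
    _ ≤ ∑ _p ∈ (univ : Finset (R × R)).filter fun p => p.1 ≠ p.2, Fintype.card (Tab R S K C) :=
        sum_le_sum fun p hp => card_eq_le (mem_filter.1 hp).2
    _ = ((univ : Finset (R × R)).filter fun p => p.1 ≠ p.2).card * Fintype.card (Tab R S K C) := by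
        rw [sum_const, smul_eq_mul]
    _ ≤ Fintype.card R ^ 2 * Fintype.card (Tab R S K C) := by
        refine Nat.mul_le_mul_right _ ((card_filter_le _ _).trans ?_)
        rw [card_univ, Fintype.card_prod, sq]

open Classical in
/-- the pairs which are related to a question -/
theorem pairs_le [Fintype R] [Fintype S] {T : Tab R S K C} (hT : Function.Injective T.1)
    (q : Qn R S K C) :
    ((univ : Finset (R × S)).filter fun x => Zq T x.1 x.2 q).card ≤ Fintype.card S := by
  rw [← card_univ (α := S)]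
  refine card_le_card_of_injOn Prod.snd (fun _ _ => mem_univ _) ?_
  rintro ⟨r, s⟩ hx ⟨r₁, s₁⟩ hy hxy
  rw [mem_coe, mem_filter] at hx hy
  have h1 := hx.2
  have h2 := hy.2
  simp only at hxy
  have h3 : r = r₁ := by
    cases q with
    | p r₂ => exact h1.elim
    | e k b s' => exact hT (h1.1.symm.trans h2.1)
    | d r₂ c => exact hT (h1.symm.trans h2)
  rw [h3, hxy]

open Classical in
/-- PIECE SEC2 -/
theorem p_sec2 : P_sec2 := by
  intro R S K C _ _ _ _ N t a b r' s' hR hS hK hN
  have hNr : (0 : ℝ) < N := by exact_mod_cast hN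
  obtain ⟨X, hX⟩ : ∃ X : Tab R S K C → ℝ, X = fun T => ∑ r : R, ∑ s : S,
    (if ∃ q ∈ a.Q (T.1 r') (T.2 (T.1 r') b s') T, Zq T r s q then (1 : ℝ) else 0) := ⟨_, rfl⟩
  have hXcard : ∀ T, X T = (((univ : Finset (R × S)).filter fun x =>
      ∃ q ∈ a.Q (T.1 r') (T.2 (T.1 r') b s') T, Zq T x.1 x.2 q).card : ℝ) := by
    intro T
    rw [hX, card_filter]
    push_cast
    rw [← univ_product_univ, sum_product]
    refine sum_congr rfl fun r _ => sum_congr rfl fun s _ => ?_
    congr
  have h1 : ∀ T : Tab R S K C, X T ≤ t * N +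
      (if ¬ Function.Injective T.1 then (N : ℝ) ^ 2 else 0) := by
    intro T
    rw [hXcard]
    by_cases hT : Function.Injective T.1
    · rw [if_neg (not_not.2 hT), add_zero]
      have h2 : ((univ : Finset (R × S)).filter fun x =>
          ∃ q ∈ a.Q (T.1 r') (T.2 (T.1 r') b s') T, Zq T x.1 x.2 q).card ≤ t * N := by
        have h3 : ((univ : Finset (R × S)).filter fun x =>
            ∃ q ∈ a.Q (T.1 r') (T.2 (T.1 r') b s') T, Zq T x.1 x.2 q) ⊆
            (a.Q (T.1 r') (T.2 (T.1 r') b s') T).biUnion fun q =>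
              (univ : Finset (R × S)).filter fun x => Zq T x.1 x.2 q := by
          intro x hx
          obtain ⟨q, hq, hq2⟩ := (mem_filter.1 hx).2
          exact mem_biUnion.2 ⟨q, hq, mem_filter.2 ⟨mem_univ _, hq2⟩⟩
        refine (card_le_card h3).trans (card_biUnion_le.trans ?_)
        refine (sum_le_card_nsmul _ _ N fun q _ => (pairs_le hT q).trans hS.le).trans ?_
        rw [smul_eq_mul]
        exact Nat.mul_le_mul_right _ (a.card _ _ _)
      exact_mod_cast h2
    · rw [if_pos hT]
      have h2 : ((univ : Finset (R × S)).filter fun x =>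
          ∃ q ∈ a.Q (T.1 r') (T.2 (T.1 r') b s') T, Zq T x.1 x.2 q).card ≤ N ^ 2 := by
        refine (card_filter_le _ _).trans ?_
        rw [card_univ, Fintype.card_prod, hR, hS, sq]
      have h3 : (((univ : Finset (R × S)).filter fun x =>
          ∃ q ∈ a.Q (T.1 r') (T.2 (T.1 r') b s') T, Zq T x.1 x.2 q).card : ℝ) ≤ (N : ℝ) ^ 2 := by
        exact_mod_cast h2
      have h4 : (0 : ℝ) ≤ t * N := by positivity
      linarith
  have h2 : ∑ T : Tab R S K C, X T ≤ ∑ T : Tab R S K C, ((t : ℝ) * N +
      (if ¬ Function.Injective T.1 then (N : ℝ) ^ 2 else 0)) := sum_le_sum fun T _ => h1 T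
  rw [sum_add_distrib, sum_const, ← sum_filter, sum_const, nsmul_eq_mul, nsmul_eq_mul,
    card_univ] at h2
  have h3 := card_bad_le (R := R) (S := S) (K := K) (C := C)
  rw [hK, hR] at h3
  have h4 : ((univ.filter fun T : Tab R S K C => ¬ Function.Injective T.1).card : ℝ) * N ^ 3 ≤
      (N : ℝ) ^ 2 * Fintype.card (Tab R S K C) := by exact_mod_cast h3
  have h5 : ((univ.filter fun T : Tab R S K C => ¬ Function.Injective T.1).card : ℝ) * N ^ 2 ≤
      N * Fintype.card (Tab R S K C) := by
    refine le_of_mul_le_mul_right ?_ hNr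
    calc ((univ.filter fun T : Tab R S K C => ¬ Function.Injective T.1).card : ℝ) * N ^ 2 * N
        = ((univ.filter fun T : Tab R S K C => ¬ Function.Injective T.1).card : ℝ) * N ^ 3 := by
          ring
      _ ≤ (N : ℝ) ^ 2 * Fintype.card (Tab R S K C) := h4
      _ = N * Fintype.card (Tab R S K C) * N := by ring
  have h6 : ∑ T : Tab R S K C, X T ≤ (t * N + N) * Fintype.card (Tab R S K C) := by
    calc ∑ T : Tab R S K C, X T ≤ _ := h2
      _ ≤ Fintype.card (Tab R S K C) * ((t : ℝ) * N) + N * Fintype.card (Tab R S K C) :=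
        add_le_add le_rfl h5
      _ = _ := by ring
  refine le_trans (le_of_eq ?_) h6
  rw [hX]
  refine sum_congr rfl fun T _ => sum_congr rfl fun r _ => sum_congr rfl fun s _ => ?_
  congr

end Pool.Agent.W2helper92.PW
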